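import Pool.Agent.V5helper19.QC.Stm

/-!
# Project QC, job TA: the tail bound for the q-Catalan polynomial
-/

set_option autoImplicit false
open Finset

namespace V5helper1.QC

open V5helper19.QC

theorem GC_eq (n : ℕ) (hn : 1 ≤ n) (w : ℂ) (hw : ∀ i : ℕ, 1 ≤ i → w ^ i ≠ 1) :
    GC n w * (1 - w ^ (n + 1)) = QB (2 * n) n w * (1 - w) := by
  obtain ⟨m, rfl⟩ : ∃ m, n = m + 1 := ⟨n - 1, by omega⟩
  have hw1 : (1 : ℂ) - w ≠ 0 := by
    have := hw 1 le_rfl
    rw [pow_one] at this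
    exact sub_ne_zero.2 (Ne.symm this)
  have e1 : QB (2 * (m + 1)) (m + 1) w = ∏ i ∈ range (m + 1),
      (1 - w ^ (m + 1 + 1 + i)) / (1 - w ^ (i + 1)) := by
    rw [QB, prod_div_distrib, prod_div_distrib]
    congr 1
    rw [← prod_range_reflect]
    refine prod_congr rfl fun i hi => ?_
    have := mem_range.1 hi
    congr 2
    omega
  have e2 : GC (m + 1) w = ∏ i ∈ range m, (1 - w ^ (m + 1 + 1 + (i + 1))) / (1 - w ^ (i + 1 + 1)) := by
    rw [GC]
    have h1 : Icc 2 (m + 1) = Ico 2 (m + 1 + 1) := by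
      ext j
      simp only [mem_Icc, mem_Ico]
      omega
    rw [h1, prod_Ico_eq_prod_range]
    have h2 : m + 1 + 1 - 2 = m := by omega
    rw [h2]
    refine prod_congr rfl fun i _ => ?_
    congr 2
    · congr 1
      omega
    · congr 1
      omega
  rw [e1, prod_range_succ', e2, mul_assoc]
  congr 1
  rw [zero_add, pow_one, add_zero, div_mul_cancel₀ _ hw1]

theorem QB_succ {K : Type} [Field K] (n : ℕ) (w : K) :
    QB (2 * n) (n + 1) w = QB (2 * n) n w * ((1 - w ^ n) / (1 - w ^ (n + 1))) := by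
  rw [QB, prod_range_succ, QB]
  have : 2 * n - n = n := by omega
  rw [this]

theorem GC_diff (n : ℕ) (hn : 1 ≤ n) (w : ℂ) (hw : ∀ i : ℕ, 1 ≤ i → w ^ i ≠ 1) :
    GC n w = QB (2 * n) n w - w * QB (2 * n) (n + 1) w := by
  have h1 := GC_eq n hn w hw
  have h0 : (1 : ℂ) - w ^ (n + 1) ≠ 0 := sub_ne_zero.2 (Ne.symm (hw (n + 1) (by omega)))
  have h2 : GC n w = QB (2 * n) n w * (1 - w) / (1 - w ^ (n + 1)) := by
    rw [eq_div_iff h0, h1]
  rw [h2, QB_succ]
  field_simp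
  ring

theorem QB_cast (N r : ℕ) (q : ℝ) : QB N r ((q : ℝ) : ℂ) = ((QB N r q : ℝ) : ℂ) := by
  simp only [QB]
  push_cast
  rfl

/-- TA -/
theorem t_TA (h1 : S_QBT) (h2 : S_CO) (h3 : S_PR) (h4 : S_MO) : S_TA := by
  intro δ hδ hδ1
  obtain ⟨c, hc, hPR⟩ := h3 δ hδ hδ1
  obtain ⟨c', hc', hMO⟩ := h4
  refine ⟨4 / c', c, by positivity, hc, fun n α θ hn hα hNN hθ hθπ => ?_⟩
  have hPR' := hPR n α θ
  have hMO' := hMO n α hn hα hNN
  obtain ⟨q, hq⟩ : ∃ q : ℝ, q = Real.exp (-α) := ⟨_, rfl⟩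
  obtain ⟨s, hs⟩ : ∃ s : ℝ, s = Real.exp (α * ((n : ℝ) - 1 / 2)) := ⟨_, rfl⟩
  obtain ⟨w, hw⟩ : ∃ w : ℂ, w = Complex.exp (-(zz α θ)) := ⟨_, rfl⟩
  obtain ⟨M, hM⟩ : ∃ M : ℝ, M = NN n α := ⟨_, rfl⟩
  rw [← hs, ← hw, ← hq] at hPR'
  rw [← hs, ← hq, ← hM] at hMO'
  have hq0 : 0 < q := by rw [hq]; exact Real.exp_pos _
  have hs0 : 0 < s := by rw [hs]; exact Real.exp_pos _
  have hq1 : q < 1 := by
    rw [hq, Real.exp_lt_one_iff]
    linarith
  have hwn : ‖w‖ = q := by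
    rw [hw, Complex.norm_exp, hq]
    congr 1
    simp [zz]
  have hwi : ∀ i : ℕ, 1 ≤ i → w ^ i ≠ 1 := by
    intro i hi h
    have h5 : ‖w ^ i‖ = 1 := by rw [h, norm_one]
    rw [norm_pow, hwn] at h5
    have := pow_lt_one₀ hq0.le hq1 (by omega : i ≠ 0)
    linarith
  have hM0 : 0 < M := by rw [hM]; linarith
  have hn0 : (0 : ℝ) < n := by
    have : 0 < n := by omega
    exact_mod_cast this
  have hMn : M ≤ n := by rw [hM]; exact min_le_left _ _
  have hMa : M ≤ 1 / α := by rw [hM]; exact min_le_right _ _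
  -- Cauchy's bound
  have hB : ∀ r : ℕ, r ≤ 2 * n → ‖w ^ (r.choose 2) * QB (2 * n) r w‖ * s ^ r ≤
      Real.exp (-(c * M)) * ∏ j ∈ range (2 * n), (1 + s * q ^ j) := by
    refine h2 (2 * n) (fun r => w ^ (r.choose 2) * QB (2 * n) r w) s _ hs0 fun φ => ?_
    have e1 := h1 ℂ (2 * n) w ((s : ℂ) * Complex.exp ((φ : ℂ) * Complex.I)) hwi
    rw [← e1, norm_prod, hM]
    exact hPR' φ hn hα hNN hθ hθπ
  obtain ⟨B, hBd⟩ : ∃ B : ℝ, B = Real.exp (-(c * M)) * ∏ j ∈ range (2 * n), (1 + s * q ^ j) :=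
    ⟨_, rfl⟩
  obtain ⟨D, hD⟩ : ∃ D : ℝ, D = q ^ (n.choose 2) * s ^ n := ⟨_, rfl⟩
  have hD0 : 0 < D := by rw [hD]; positivity
  have hB0 : 0 ≤ B := by
    rw [hBd]
    exact mul_nonneg (Real.exp_pos _).le (prod_nonneg fun j _ => by positivity)
  have hA1 : ‖QB (2 * n) n w‖ * D ≤ B := by
    have := hB n (by omega)
    rw [norm_mul, norm_pow, hwn, ← hBd] at this
    rw [hD]
    calc ‖QB (2 * n) n w‖ * (q ^ n.choose 2 * s ^ n) =
        q ^ n.choose 2 * ‖QB (2 * n) n w‖ * s ^ n := by ring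
      _ ≤ B := this
  have hqs : q ^ n * s = Real.exp (-(α / 2)) := by
    rw [hq, hs, ← Real.exp_nat_mul, ← Real.exp_add]
    congr 1
    ring
  have hA2 : ‖QB (2 * n) (n + 1) w‖ * (D * Real.exp (-(α / 2))) ≤ B := by
    have := hB (n + 1) (by omega)
    rw [norm_mul, norm_pow, hwn, ← hBd] at this
    have e2 : (n + 1).choose 2 = n.choose 2 + n := by
      rw [Nat.choose_succ_succ' n 1, Nat.choose_one_right]
      ring
    rw [e2, pow_add, pow_succ] at this
    rw [hD, ← hqs]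
    calc ‖QB (2 * n) (n + 1) w‖ * (q ^ n.choose 2 * s ^ n * (q ^ n * s)) =
        q ^ n.choose 2 * q ^ n * ‖QB (2 * n) (n + 1) w‖ * (s ^ n * s) := by ring
      _ ≤ B := this
  have hG : ‖GC n w‖ * D ≤ 2 * B := by
    rw [GC_diff n (by omega) w hwi]
    have h5 : ‖QB (2 * n) n w - w * QB (2 * n) (n + 1) w‖ ≤
        ‖QB (2 * n) n w‖ + q * ‖QB (2 * n) (n + 1) w‖ := by
      refine (norm_sub_le _ _).trans ?_
      rw [norm_mul, hwn]
    have h6 : q * ‖QB (2 * n) (n + 1) w‖ * D ≤ B := by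
      have h7 : q = Real.exp (-(α / 2)) * Real.exp (-(α / 2)) := by
        rw [hq, ← Real.exp_add]
        congr 1
        ring
      have h8 : Real.exp (-(α / 2)) ≤ 1 := by
        rw [Real.exp_le_one_iff]
        linarith
      calc q * ‖QB (2 * n) (n + 1) w‖ * D =
          Real.exp (-(α / 2)) * (‖QB (2 * n) (n + 1) w‖ * (D * Real.exp (-(α / 2)))) := by
            rw [h7]; ring
        _ ≤ 1 * B := mul_le_mul h8 hA2 (by positivity) zero_le_one
        _ = B := one_mul B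
    calc ‖QB (2 * n) n w - w * QB (2 * n) (n + 1) w‖ * D ≤
        (‖QB (2 * n) n w‖ + q * ‖QB (2 * n) (n + 1) w‖) * D := mul_le_mul_of_nonneg_right h5 hD0.le
      _ = ‖QB (2 * n) n w‖ * D + q * ‖QB (2 * n) (n + 1) w‖ * D := by ring
      _ ≤ 2 * B := by linarith
  -- the largest coefficient
  have hP : ∏ j ∈ range (2 * n), (1 + s * q ^ j) ≤ M / c' * (D * QB (2 * n) n q) := by
    have h5 : c' / M * ∏ j ∈ range (2 * n), (1 + s * q ^ j) ≤ D * QB (2 * n) n q := by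
      rw [hD]
      calc c' / M * ∏ j ∈ range (2 * n), (1 + s * q ^ j) ≤
          q ^ n.choose 2 * QB (2 * n) n q * s ^ n := hMO'
        _ = q ^ n.choose 2 * s ^ n * QB (2 * n) n q := by ring
    calc ∏ j ∈ range (2 * n), (1 + s * q ^ j) =
        M / c' * (c' / M * ∏ j ∈ range (2 * n), (1 + s * q ^ j)) := by
          field_simp
      _ ≤ M / c' * (D * QB (2 * n) n q) := mul_le_mul_of_nonneg_left h5 (by positivity)
  have hG2 : ‖GC n w‖ ≤ 2 * (Real.exp (-(c * M)) * (M / c' * QB (2 * n) n q)) := by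
    have h5 : B ≤ Real.exp (-(c * M)) * (M / c' * (D * QB (2 * n) n q)) := by
      rw [hBd]
      exact mul_le_mul_of_nonneg_left hP (Real.exp_pos _).le
    have h6 : ‖GC n w‖ * D ≤ 2 * (Real.exp (-(c * M)) * (M / c' * QB (2 * n) n q)) * D := by
      calc ‖GC n w‖ * D ≤ 2 * B := hG
        _ ≤ 2 * (Real.exp (-(c * M)) * (M / c' * (D * QB (2 * n) n q))) := by linarith
        _ = 2 * (Real.exp (-(c * M)) * (M / c' * QB (2 * n) n q)) * D := by ring
    exact le_of_mul_le_mul_right h6 hD0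
  -- comparison with the value at the real point
  have hqi : ∀ i : ℕ, 1 ≤ i → ((q : ℝ) : ℂ) ^ i ≠ 1 := by
    intro i hi h
    have h5 : q ^ i = 1 := by exact_mod_cast h
    have := pow_lt_one₀ hq0.le hq1 (by omega : i ≠ 0)
    linarith
  have hQ : QB (2 * n) n q ≤ 2 * M * ‖GC n ((q : ℝ) : ℂ)‖ := by
    have h5 := congrArg norm (GC_eq n (by omega) ((q : ℝ) : ℂ) hqi)
    rw [norm_mul, norm_mul, QB_cast, Complex.norm_real] at h5
    have h6 : ‖(1 : ℂ) - ((q : ℝ) : ℂ) ^ (n + 1)‖ = 1 - q ^ (n + 1) := by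
      have : (1 : ℂ) - ((q : ℝ) : ℂ) ^ (n + 1) = ((1 - q ^ (n + 1) : ℝ) : ℂ) := by push_cast; rfl
      rw [this, Complex.norm_real, Real.norm_of_nonneg]
      have := pow_le_one₀ (n := n + 1) hq0.le hq1.le
      linarith
    have h7 : ‖(1 : ℂ) - ((q : ℝ) : ℂ)‖ = 1 - q := by
      have : (1 : ℂ) - ((q : ℝ) : ℂ) = ((1 - q : ℝ) : ℂ) := by push_cast; rfl
      rw [this, Complex.norm_real, Real.norm_of_nonneg]
      linarith
    rw [h6, h7] at h5
    have h8 : 1 - q ^ (n + 1) ≤ 2 * M * (1 - q) := by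
      have h9 : 1 - q ^ (n + 1) ≤ 2 * n * (1 - q) := by
        have h10 := one_add_mul_le_pow (a := q - 1) (by linarith) (n + 1)
        rw [add_sub_cancel] at h10
        push_cast at h10
        have h11 : (1 : ℝ) ≤ n := by
          have : 1 ≤ n := by omega
          exact_mod_cast this
        nlinarith
      have hα1 : α ≤ 1 := by
        have h10 : 2 ≤ 1 / α := hNN.trans (by rw [← hM]; exact hMa)
        rw [le_div_iff₀ hα] at h10
        linarith
      have h10 : α / 2 ≤ 1 - q := by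
        have h11 : 1 + α ≤ Real.exp α := by
          have := Real.add_one_le_exp α
          linarith
        have h12 : q ≤ 1 / (1 + α) := by
          rw [hq, Real.exp_neg, ← one_div]
          exact one_div_le_one_div_of_le (by linarith) h11
        have h13 : 1 / (1 + α) ≤ 1 - α / 2 := by
          rw [div_le_iff₀ (by linarith)]
          nlinarith
        linarith
      have h11 : 1 - q ^ (n + 1) ≤ 2 * (1 / α) * (1 - q) := by
        have h12 : 0 ≤ q ^ (n + 1) := by positivity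
        have h13 : 1 ≤ 2 * (1 / α) * (1 - q) := by
          calc 1 = 2 * (1 / α) * (α / 2) := by field_simp
            _ ≤ 2 * (1 / α) * (1 - q) := mul_le_mul_of_nonneg_left h10 (by positivity)
        linarith
      rw [hM, NN]
      rcases min_choice (n : ℝ) (1 / α) with h | h
      · rw [h]; exact h9
      · rw [h]; exact h11
    have h1q : 0 < 1 - q := by linarith
    have h9 : ‖QB (2 * n) n q‖ * (1 - q) ≤ 2 * M * ‖GC n ((q : ℝ) : ℂ)‖ * (1 - q) := by
      rw [← h5]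
      calc ‖GC n ((q : ℝ) : ℂ)‖ * (1 - q ^ (n + 1)) ≤
          ‖GC n ((q : ℝ) : ℂ)‖ * (2 * M * (1 - q)) :=
            mul_le_mul_of_nonneg_left h8 (norm_nonneg _)
        _ = 2 * M * ‖GC n ((q : ℝ) : ℂ)‖ * (1 - q) := by ring
    exact (Real.le_norm_self _).trans (le_of_mul_le_mul_right h9 h1q)
  have hfin : GZ n (zz α θ) = GC n w := by rw [GZ, hw]
  have hfin2 : GZ n (α : ℂ) = GC n ((q : ℝ) : ℂ) := by
    rw [GZ, hq]
    push_cast
    rfl
  rw [hfin, hfin2, ← hM]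
  refine hG2.trans ?_
  have hE := (Real.exp_pos (-(c * M))).le
  calc 2 * (Real.exp (-(c * M)) * (M / c' * QB (2 * n) n q)) ≤
      2 * (Real.exp (-(c * M)) * (M / c' * (2 * M * ‖GC n ((q : ℝ) : ℂ)‖))) := by
        have h5 : M / c' * QB (2 * n) n q ≤ M / c' * (2 * M * ‖GC n ((q : ℝ) : ℂ)‖) :=
          mul_le_mul_of_nonneg_left hQ (by positivity)
        have h6 := mul_le_mul_of_nonneg_left h5 hE
        linarith
    _ = 4 / c' * M ^ 2 * Real.exp (-(c * M)) * ‖GC n ((q : ℝ) : ℂ)‖ := by ring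

end V5helper1.QC
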